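import Pool.Agent.H78.AP.Ac

/-!
# MP_a5ef40: for almost all `n` some `k ≤ L log n / log log n` gives an almost prime

`p_j = Nat.nth Nat.Prime (j - 1)` is the `j`-th prime.
-/

set_option autoImplicit false

namespace Pool.Agent.Results.MP_a5ef40_nt.AlmostAllIndex

open Classical in
/-- For every `ε > 0` there are a natural number `r`, `δ, L > 0` and `N₀` such that for all `N ≥ N₀` all but at most `ε N` of
the integers `1 ≤ n ≤ N` have an integer `k` with `1 < k ≤ L log N / log log N` for which the number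
`p_n + C(p_k - 1, (p_k - 1)/2)` has at most `r` prime factors (counted with multiplicity), all larger than `N^δ`. -/
theorem result : ∀ ε : ℝ, 0 < ε → ∃ (r : ℕ) (δ L : ℝ), 0 < δ ∧ 0 < L ∧ ∃ N0 : ℕ, ∀ N : ℕ, N0 ≤ N →
    (((Finset.Icc 1 N).filter (fun n : ℕ => ¬ ∃ k : ℕ, 1 < k ∧ (k : ℝ) ≤ L * Real.log N / Real.log (Real.log N) ∧
      (Nat.nth Nat.Prime (n - 1) +
        (Nat.nth Nat.Prime (k - 1) - 1).choose ((Nat.nth Nat.Prime (k - 1) - 1) / 2)).primeFactorsList.length ≤ r ∧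
      ∀ l : ℕ, l.Prime → l ∣ Nat.nth Nat.Prime (n - 1) +
        (Nat.nth Nat.Prime (k - 1) - 1).choose ((Nat.nth Nat.Prime (k - 1) - 1) / 2) → (N : ℝ) ^ δ < l)).card : ℝ) ≤ ε * N :=
  fun ε hε => H78AP.apAll ε hε

end Pool.Agent.Results.MP_a5ef40_nt.AlmostAllIndex
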