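import Pool.Agent.H78.AP.Ub

/-!
# MP_a5ef40: the almost prime version, with the order of magnitude `N K log K / log N`

`p_j = Nat.nth Nat.Prime (j - 1)` is the `j`-th prime.
-/

set_option autoImplicit false

namespace Pool.Agent.Results.MP_a5ef40_nt.AlmostPrimeIndex

open Classical in
/-- There are a natural number `r` and `δ, c > 0` and `N₀` such that for all `N ≥ N₀` and all `K ≥ 2` with `K log K ≤ log N`
at least `c N K log K / log N` of the integers `1 ≤ n ≤ N` have an integer `k` with `1 < k ≤ K` for which the number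
`p_n + C(p_k - 1, (p_k - 1)/2)` has at most `r` prime factors (counted with multiplicity), all larger than `N^δ`. -/
theorem result : ∃ (r : ℕ) (δ c : ℝ), 0 < δ ∧ 0 < c ∧ ∃ N0 : ℕ, ∀ N : ℕ, N0 ≤ N → ∀ K : ℕ, 2 ≤ K →
    (K : ℝ) * Real.log K ≤ Real.log N →
    c * ((N : ℝ) * (K * Real.log K) / Real.log N) ≤ (((Finset.Icc 1 N).filter (fun n : ℕ => ∃ k : ℕ, 1 < k ∧ k ≤ K ∧
      (Nat.nth Nat.Prime (n - 1) +
        (Nat.nth Nat.Prime (k - 1) - 1).choose ((Nat.nth Nat.Prime (k - 1) - 1) / 2)).primeFactorsList.length ≤ r ∧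
      ∀ l : ℕ, l.Prime → l ∣ Nat.nth Nat.Prime (n - 1) +
        (Nat.nth Nat.Prime (k - 1) - 1).choose ((Nat.nth Nat.Prime (k - 1) - 1) / 2) → (N : ℝ) ^ δ < l)).card : ℝ) :=
  H78AP.apN

open Classical in
/-- A positive proportion of the `n ≤ N` have such a `k` with `1 < k ≤ log N / log log N`. -/
theorem positive_proportion : ∃ (r : ℕ) (δ c : ℝ), 0 < δ ∧ 0 < c ∧ ∃ N0 : ℕ, ∀ N : ℕ, N0 ≤ N →
    c * (N : ℝ) ≤ (((Finset.Icc 1 N).filter (fun n : ℕ => ∃ k : ℕ, 1 < k ∧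
      (k : ℝ) ≤ Real.log N / Real.log (Real.log N) ∧
      (Nat.nth Nat.Prime (n - 1) +
        (Nat.nth Nat.Prime (k - 1) - 1).choose ((Nat.nth Nat.Prime (k - 1) - 1) / 2)).primeFactorsList.length ≤ r ∧
      ∀ l : ℕ, l.Prime → l ∣ Nat.nth Nat.Prime (n - 1) +
        (Nat.nth Nat.Prime (k - 1) - 1).choose ((Nat.nth Nat.Prime (k - 1) - 1) / 2) → (N : ℝ) ^ δ < l)).card : ℝ) :=
  H78AP.apPos

open Classical in
/-- The order `N K log K / log N` is exact. -/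
theorem exact_order : ∃ (r : ℕ) (δ c C : ℝ), 0 < δ ∧ 0 < c ∧ 0 < C ∧ ∃ N0 : ℕ, ∀ N : ℕ, N0 ≤ N → ∀ K : ℕ, 2 ≤ K →
    (K : ℝ) * Real.log K ≤ Real.log N →
    c * ((N : ℝ) * (K * Real.log K) / Real.log N) ≤ (((Finset.Icc 1 N).filter (fun n : ℕ => ∃ k : ℕ, 1 < k ∧ k ≤ K ∧
      (Nat.nth Nat.Prime (n - 1) +
        (Nat.nth Nat.Prime (k - 1) - 1).choose ((Nat.nth Nat.Prime (k - 1) - 1) / 2)).primeFactorsList.length ≤ r ∧
      ∀ l : ℕ, l.Prime → l ∣ Nat.nth Nat.Prime (n - 1) +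
        (Nat.nth Nat.Prime (k - 1) - 1).choose ((Nat.nth Nat.Prime (k - 1) - 1) / 2) → (N : ℝ) ^ δ < l)).card : ℝ) ∧
    (((Finset.Icc 1 N).filter (fun n : ℕ => ∃ k : ℕ, 1 < k ∧ k ≤ K ∧
      (Nat.nth Nat.Prime (n - 1) +
        (Nat.nth Nat.Prime (k - 1) - 1).choose ((Nat.nth Nat.Prime (k - 1) - 1) / 2)).primeFactorsList.length ≤ r ∧
      ∀ l : ℕ, l.Prime → l ∣ Nat.nth Nat.Prime (n - 1) +
        (Nat.nth Nat.Prime (k - 1) - 1).choose ((Nat.nth Nat.Prime (k - 1) - 1) / 2) → (N : ℝ) ^ δ < l)).card : ℝ) ≤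
      C * ((N : ℝ) * (K * Real.log K) / Real.log N) :=
  H78AP.apTwo

end Pool.Agent.Results.MP_a5ef40_nt.AlmostPrimeIndex
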