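import Pool.Agent.H78.CB.Fin

/-!
# MP_a5ef40: for almost all `n` no index `k` up to `c log n / loglog n` works

`p_j = Nat.nth Nat.Prime (j - 1)` is the `j`-th prime.
-/

set_option autoImplicit false

namespace Pool.Agent.Results.MP_a5ef40_nt.FewSmallIndices

open Classical in
/-- There are `C > 0` and `N₀` such that for all `N ≥ N₀` and `K ≥ 2` at most `C N K log K / log N` of the `n ≤ N`
have a `k` with `1 < k ≤ K` for which `p_n + C(p_k - 1, (p_k - 1)/2)` is prime. -/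
theorem result : ∃ C : ℝ, 0 < C ∧ ∃ N0 : ℕ, ∀ N : ℕ, N0 ≤ N → ∀ K : ℕ, 2 ≤ K →
    (((Finset.Icc 1 N).filter (fun n : ℕ => ∃ k : ℕ, 1 < k ∧ k ≤ K ∧
      (Nat.nth Nat.Prime (n - 1) +
        (Nat.nth Nat.Prime (k - 1) - 1).choose ((Nat.nth Nat.Prime (k - 1) - 1) / 2)).Prime)).card : ℝ)
      ≤ C * N * (K * Real.log K / Real.log N) :=
  Pool.Agent.H78.CB.few

open Classical in
/-- For every `ε > 0` there is `c > 0` such that for all large `N` at most `ε N` of the `n ≤ N` have a `k` with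
`1 < k ≤ c log N / loglog N` for which `p_n + C(p_k - 1, (p_k - 1)/2)` is prime. -/
theorem almost_all (ε : ℝ) (hε : 0 < ε) : ∃ c : ℝ, 0 < c ∧ ∃ N0 : ℕ, ∀ N : ℕ, N0 ≤ N →
    (((Finset.Icc 1 N).filter (fun n : ℕ => ∃ k : ℕ, 1 < k ∧
      (k : ℝ) ≤ c * Real.log N / Real.log (Real.log N) ∧
      (Nat.nth Nat.Prime (n - 1) +
        (Nat.nth Nat.Prime (k - 1) - 1).choose ((Nat.nth Nat.Prime (k - 1) - 1) / 2)).Prime)).card : ℝ)
      ≤ ε * N := by
  obtain ⟨C, hC, N0, h⟩ := result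
  refine ⟨min 1 (ε / C), by positivity, max N0 ⌈Real.exp (Real.exp 1)⌉₊, ?_⟩
  intro N hN
  have hN1 : N0 ≤ N := (le_max_left _ _).trans hN
  have hN2 : Real.exp (Real.exp 1) ≤ N := (Nat.le_ceil _).trans (by exact_mod_cast (le_max_right _ _).trans hN)
  have hN0 : (0 : ℝ) < N := (Real.exp_pos _).trans_le hN2
  have hl : Real.exp 1 ≤ Real.log N := (Real.le_log_iff_exp_le hN0).2 hN2
  have hl0 : 0 < Real.log (N : ℝ) := (Real.exp_pos _).trans_le hl
  have hll : 1 ≤ Real.log (Real.log N) := (Real.le_log_iff_exp_le hl0).2 hl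
  set c := min 1 (ε / C) with hc
  have hc0 : 0 < c := by positivity
  have hc1 : c ≤ 1 := min_le_left _ _
  have hc2 : c ≤ ε / C := min_le_right _ _
  set y : ℝ := c * Real.log N / Real.log (Real.log N) with hy
  have hy0 : 0 ≤ y := by positivity
  by_cases h2 : 2 ≤ ⌊y⌋₊
  · have h3 := h N hN1 ⌊y⌋₊ h2
    have h4 : ((Finset.Icc 1 N).filter (fun n : ℕ => ∃ k : ℕ, 1 < k ∧ (k : ℝ) ≤ y ∧
      (Nat.nth Nat.Prime (n - 1) +
        (Nat.nth Nat.Prime (k - 1) - 1).choose ((Nat.nth Nat.Prime (k - 1) - 1) / 2)).Prime)) ⊆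
      ((Finset.Icc 1 N).filter (fun n : ℕ => ∃ k : ℕ, 1 < k ∧ k ≤ ⌊y⌋₊ ∧
      (Nat.nth Nat.Prime (n - 1) +
        (Nat.nth Nat.Prime (k - 1) - 1).choose ((Nat.nth Nat.Prime (k - 1) - 1) / 2)).Prime)) := by
      intro n hn
      rw [Finset.mem_filter] at hn ⊢
      obtain ⟨a, k, b1, b2, b3⟩ := hn
      exact ⟨a, k, b1, Nat.le_floor b2, b3⟩
    have h5 : (((Finset.Icc 1 N).filter (fun n : ℕ => ∃ k : ℕ, 1 < k ∧ (k : ℝ) ≤ y ∧
      (Nat.nth Nat.Prime (n - 1) +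
        (Nat.nth Nat.Prime (k - 1) - 1).choose ((Nat.nth Nat.Prime (k - 1) - 1) / 2)).Prime)).card : ℝ) ≤
        C * N * ((⌊y⌋₊ : ℝ) * Real.log (⌊y⌋₊ : ℝ) / Real.log N) :=
      le_trans (by exact_mod_cast Finset.card_le_card h4) h3
    refine h5.trans ?_
    have hf : (⌊y⌋₊ : ℝ) ≤ y := Nat.floor_le hy0
    have hf2 : (2 : ℝ) ≤ (⌊y⌋₊ : ℝ) := by exact_mod_cast h2
    have hyl : y ≤ Real.log N := by
      rw [hy, div_le_iff₀ (by linarith)]
      calc c * Real.log N ≤ 1 * Real.log N := mul_le_mul_of_nonneg_right hc1 hl0.le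
        _ = Real.log N * 1 := by ring
        _ ≤ Real.log N * Real.log (Real.log N) := mul_le_mul_of_nonneg_left hll hl0.le
    have hlf : Real.log (⌊y⌋₊ : ℝ) ≤ Real.log (Real.log N) := Real.log_le_log (by linarith) (hf.trans hyl)
    have hlf0 : 0 ≤ Real.log (⌊y⌋₊ : ℝ) := Real.log_nonneg (by linarith)
    have h6 : (⌊y⌋₊ : ℝ) * Real.log (⌊y⌋₊ : ℝ) ≤ c * Real.log N := by
      calc (⌊y⌋₊ : ℝ) * Real.log (⌊y⌋₊ : ℝ) ≤ y * Real.log (Real.log N) := mul_le_mul hf hlf hlf0 hy0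
        _ = c * Real.log N := by rw [hy]; field_simp
    have h7 : (⌊y⌋₊ : ℝ) * Real.log (⌊y⌋₊ : ℝ) / Real.log N ≤ c := by
      rw [div_le_iff₀ hl0]
      exact h6
    have h8 : C * c ≤ ε := by
      have := mul_le_mul_of_nonneg_left hc2 hC.le
      rwa [mul_div_cancel₀ _ hC.ne'] at this
    calc C * N * ((⌊y⌋₊ : ℝ) * Real.log (⌊y⌋₊ : ℝ) / Real.log N) ≤ C * N * c :=
          mul_le_mul_of_nonneg_left h7 (by positivity)
      _ = (C * c) * N := by ring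
      _ ≤ ε * N := mul_le_mul_of_nonneg_right h8 hN0.le
  · have h3 : (Finset.Icc 1 N).filter (fun n : ℕ => ∃ k : ℕ, 1 < k ∧ (k : ℝ) ≤ y ∧
      (Nat.nth Nat.Prime (n - 1) +
        (Nat.nth Nat.Prime (k - 1) - 1).choose ((Nat.nth Nat.Prime (k - 1) - 1) / 2)).Prime) = ∅ := by
      apply Finset.filter_eq_empty_iff.mpr
      rintro n - ⟨k, hk1, hk2, -⟩
      have := Nat.le_floor hk2
      omega
    rw [h3, Finset.card_empty]
    push_cast
    positivity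

end Pool.Agent.Results.MP_a5ef40_nt.FewSmallIndices
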