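import Pool.Agent.H78.TP.Cw

/-!
# MP_a5ef40: how often no index `k` up to `λ log N / log log N` works, for `1 ≤ λ ≤ c log log N`

`p_j = Nat.nth Nat.Prime (j - 1)` is the `j`-th prime.
-/

set_option autoImplicit false

namespace Pool.Agent.Results.MP_a5ef40_nt.IndexFrequency

open Classical in
/-- There are `c, C > 0` with `c C ≤ 1/2` and `N₀` such that for all `N ≥ N₀` and all real `λ` with
`1 ≤ λ ≤ c log log N` at least `N exp (-exp (C λ))` of the integers `1 ≤ n ≤ N` are such that for every `k` with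
`1 < k ≤ λ log N / log log N` the number `p_n + C(p_k - 1, (p_k - 1)/2)` is not prime and has a prime factor at most
`N^(1/32)`. -/
theorem result : ∃ c C : ℝ, 0 < c ∧ 0 < C ∧ c * C ≤ 1 / 2 ∧ ∃ N0 : ℕ, ∀ N : ℕ, N0 ≤ N → ∀ lam : ℝ, 1 ≤ lam →
    lam ≤ c * Real.log (Real.log N) →
    (N : ℝ) ≤ Real.exp (Real.exp (C * lam)) * (((Finset.Icc 1 N).filter (fun n : ℕ => ∀ k : ℕ, 1 < k →
      (k : ℝ) ≤ lam * Real.log N / Real.log (Real.log N) →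
      ¬ (Nat.nth Nat.Prime (n - 1) +
        (Nat.nth Nat.Prime (k - 1) - 1).choose ((Nat.nth Nat.Prime (k - 1) - 1) / 2)).Prime ∧
      ∃ q : ℕ, q.Prime ∧ (q : ℝ) ≤ (N : ℝ) ^ (1 / 32 : ℝ) ∧
        q ∣ Nat.nth Nat.Prime (n - 1) +
          (Nat.nth Nat.Prime (k - 1) - 1).choose ((Nat.nth Nat.Prime (k - 1) - 1) / 2))).card : ℝ) :=
  H78TP.cbmainw

/-- There are `c > 0` and `x₀` such that for every real `x ≥ x₀` there is an `n` with `x / 3 ≤ p_n ≤ x` such that for every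
`k` with `1 < k ≤ c log x` the number `p_n + C(p_k - 1, (p_k - 1)/2)` is not prime and has a prime factor at most `x^(1/64)`. -/
theorem single : ∃ c : ℝ, 0 < c ∧ ∃ x0 : ℝ, ∀ x : ℝ, x0 ≤ x → ∃ n : ℕ, 1 ≤ n ∧
    x / 3 ≤ (Nat.nth Nat.Prime (n - 1) : ℝ) ∧ (Nat.nth Nat.Prime (n - 1) : ℝ) ≤ x ∧
    ∀ k : ℕ, 1 < k → (k : ℝ) ≤ c * Real.log x →
      ¬ (Nat.nth Nat.Prime (n - 1) +
        (Nat.nth Nat.Prime (k - 1) - 1).choose ((Nat.nth Nat.Prime (k - 1) - 1) / 2)).Prime ∧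
      ∃ q : ℕ, q.Prime ∧ (q : ℝ) ≤ x ^ (1 / 64 : ℝ) ∧
        q ∣ Nat.nth Nat.Prime (n - 1) +
          (Nat.nth Nat.Prime (k - 1) - 1).choose ((Nat.nth Nat.Prime (k - 1) - 1) / 2) :=
  H78TP.cbmain

open Classical in
/-- The same for general shifts: for every `A ≥ 1` there are `c, C > 0` with `c C ≤ 1/2` and `x₀` such that for all real
`x ≥ x₀`, all real `λ` with `1 ≤ λ ≤ c log log x` and every set `S` of at most `λ log x / log log x` nonzero integers between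
`-x/4` and `x^(A λ)` at least `(x / log x) exp (-exp (C λ))` of the primes `p` with `x / 3 ≤ p ≤ x` are such that every
`p + s`, `s ∈ S`, has a prime factor at most `x^(1/64)` (so `p + s ≥ x / 12` is composite). -/
theorem shifts (A : ℝ) (hA : 1 ≤ A) : ∃ c C x0 : ℝ, 0 < c ∧ 0 < C ∧ c * C ≤ 1 / 2 ∧ ∀ x : ℝ, x0 ≤ x → ∀ lam : ℝ, 1 ≤ lam →
    lam ≤ c * Real.log (Real.log x) → ∀ S : Finset ℤ, (S.card : ℝ) ≤ lam * Real.log x / Real.log (Real.log x) →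
    (∀ s ∈ S, s ≠ 0 ∧ -(x / 4) ≤ (s : ℝ) ∧ (s : ℝ) ≤ x ^ (A * lam)) →
    x / Real.log x ≤ Real.exp (Real.exp (C * lam)) *
      (((Finset.Icc 1 ⌊x⌋₊).filter (fun p : ℕ => p.Prime ∧ x / 3 ≤ (p : ℝ) ∧
        ∀ s ∈ S, ∃ q : ℕ, q.Prime ∧ (q : ℝ) ≤ x ^ (1 / 64 : ℝ) ∧ (q : ℤ) ∣ (p : ℤ) + s)).card : ℝ) :=
  H78TP.mainw A hA

end Pool.Agent.Results.MP_a5ef40_nt.IndexFrequency
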